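import Pool.Agent.PDM.Stmts

/-!
# SU3: the sequence of an instance with a matching is realizable
-/

set_option autoImplicit false

namespace Pool.Agent.PDM.H72

open Pool.Agent.PDN Pool.Agent.PDM

/-- the family of the values of a function on a sum -/
theorem map_univ_sum {α β γ : Type} [Fintype α] [Fintype β] (f : α ⊕ β → γ) :
    (Finset.univ : Finset (α ⊕ β)).val.map f =
      (Finset.univ : Finset α).val.map (fun a => f (Sum.inl a)) +
        (Finset.univ : Finset β).val.map (fun b => f (Sum.inr b)) := by
  rw [← Finset.univ_disjSum_univ, Finset.val_disjSum, Multiset.disjSum, Multiset.map_add,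
    Multiset.map_map, Multiset.map_map]
  rfl

/-- the family of the values of a function on `Fin 3 × β` -/
theorem map_univ_fin3 {β γ : Type} [Fintype β] (f : Fin 3 × β → γ) :
    (Finset.univ : Finset (Fin 3 × β)).val.map f =
      (Finset.univ : Finset β).val.map (fun b => f (0, b)) +
        (Finset.univ : Finset β).val.map (fun b => f (1, b)) +
        (Finset.univ : Finset β).val.map (fun b => f (2, b)) := by
  have h3 : (Finset.univ : Finset (Fin 3)).val = {0, 1, 2} := by decide
  rw [← Finset.univ_product_univ, Finset.product_val, h3]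
  simp only [Multiset.insert_eq_cons, SProd.sprod, Multiset.product, Multiset.cons_bind,
    Multiset.singleton_bind, Multiset.map_add, Multiset.map_map, Function.comp_def]
  rw [add_assoc]

/-- a map injective on `S` with `|S| = t` and values in `Fin t` is a bijection -/
theorem val_eq {t : ℕ} {γ : Type} (S : Finset γ) (hc : S.card = t) (g : γ → Fin t)
    (hg : ∀ p ∈ S, ∀ p' ∈ S, p ≠ p' → g p ≠ g p') :
    (Finset.univ : Finset (Fin t)).val = S.val.map g := by
  classical
  have hinj : Set.InjOn g (S : Set γ) := by
    intro p hp p' hp' h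
    by_contra hne
    exact hg p hp p' hp' hne h
  have h1 : S.image g = Finset.univ := by
    rw [← Finset.card_eq_iff_eq_univ, Finset.card_image_of_injOn hinj, hc, Fintype.card_fin]
  rw [← h1, Finset.image_val_of_injOn hinj]

theorem vA_pos {t : ℕ} (k : Fin 3) (i : Fin t) : 1 ≤ vA k i := by
  have h1 : 1 ≤ code k i := by
    have h2 : 0 < bs t := by unfold bs; positivity
    have h3 : 0 < bs t ^ (2 * (k : ℕ)) * ((i : ℕ) + 1) := by positivity
    unfold code
    omega
  unfold vA
  omega

theorem vA_le_vC {t : ℕ} (p : Fin t × Fin t × Fin t) : 1 ≤ vC p := by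
  have := vA_pos 0 p.1
  unfold vC
  omega

theorem sum_fin {t : ℕ} {γ : Type} (S : Finset γ) (hc : S.card = t) (g : γ → Fin t)
    (hg : ∀ p ∈ S, ∀ p' ∈ S, p ≠ p' → g p ≠ g p') (F : Fin t → ℕ) :
    ∑ i, F i = ∑ p ∈ S, F (g p) := by
  have h := val_eq S hc g hg
  have h2 : ∑ i, F i = ((Finset.univ : Finset (Fin t)).val.map F).sum := rfl
  rw [h2, h, Multiset.map_map]
  rfl

/-- the sum of a list with entries `f p - 10` -/
theorem sum_sub {γ : Type} (f : γ → ℕ) : ∀ l : List γ, (∀ p ∈ l, 10 ≤ f p) →
    (l.map (fun p => f p - 10)).sum + 10 * l.length = (l.map f).sum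
  | [], _ => rfl
  | a :: l, h => by
    have h1 := sum_sub f l (fun p hp => h p (List.mem_cons_of_mem a hp))
    have h2 := h a List.mem_cons_self
    simp only [List.map_cons, List.sum_cons, List.length_cons]
    omega

/-- SU3 -/
theorem su3 (hN : NumStmt) (hF : FinStmt) (hC : Ch3Stmt) : Su3Stmt := by
  classical
  rintro t τ ⟨S, hS, hSc, hSd⟩
  obtain ⟨hcard, hmrk, hsum, hbig, hn3⟩ := hN t τ
  set R : Finset (Fin t × Fin t × Fin t) := τ \ S with hR
  set c := sc τ with hc
  have hc400 : 400 ≤ c := by rw [hc]; unfold sc; omega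
  set lf : List ℕ := R.toList.map (fun p => c * vC p - 10) with hlf
  set gs : List (ℕ × ℕ × ℕ) :=
    S.toList.map (fun p => (c * vA 0 p.1, c * vA 1 p.2.1, c * vA 2 p.2.2)) with hgs
  have hgl : gs.length = t := by rw [hgs, List.length_map, Finset.length_toList, hSc]
  have hll : lf.length = R.card := by rw [hlf, List.length_map, Finset.length_toList]
  have hRc : R.card + t = τ.card := by
    have h1 := Finset.card_sdiff_add_card_eq_card hS
    rw [hR]
    omega
  have hcv : ∀ x : ℕ, 1 ≤ x → 400 ≤ c * x := fun x hx => by nlinarith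
  have hvD : 1 ≤ vD t := by unfold vD; omega
  obtain ⟨α, n, hα, hn, hRl⟩ := hC (c * vD t) (c * 1) (c * 3) lf gs
    (by have := hcv _ hvD; omega) (by omega) (by omega)
    (by
      intro x hx
      rw [hlf, List.mem_map] at hx
      obtain ⟨p, -, rfl⟩ := hx
      have := hcv _ (vA_le_vC p)
      omega)
    (by
      intro g hg
      rw [hgs, List.mem_map] at hg
      obtain ⟨p, -, rfl⟩ := hg
      have h0 := hcv _ (vA_pos 0 p.1)
      have h1 := hcv _ (vA_pos 1 p.2.1)
      have h2 := hcv _ (vA_pos 2 p.2.2)
      exact ⟨by show 20 ≤ c * vA 0 p.1; omega, by show 20 ≤ c * vA 1 p.2.1; omega,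
        by show 20 ≤ c * vA 2 p.2.2; omega⟩)
  -- sums
  have hd0 : ∀ p ∈ S, ∀ p' ∈ S, p ≠ p' → p.1 ≠ p'.1 := fun p hp p' hp' h => (hSd p hp p' hp' h).1
  have hd1 : ∀ p ∈ S, ∀ p' ∈ S, p ≠ p' → p.2.1 ≠ p'.2.1 :=
    fun p hp p' hp' h => (hSd p hp p' hp' h).2.1
  have hd2 : ∀ p ∈ S, ∀ p' ∈ S, p ≠ p' → p.2.2 ≠ p'.2.2 :=
    fun p hp p' hp' h => (hSd p hp p' hp' h).2.2
  have hsA : sA t = ∑ p ∈ S, vC p := by
    unfold sA
    rw [Fin.sum_univ_three, sum_fin S hSc (fun p => p.1) hd0 (vA 0),
      sum_fin S hSc (fun p => p.2.1) hd1 (vA 1), sum_fin S hSc (fun p => p.2.2) hd2 (vA 2),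
      ← Finset.sum_add_distrib, ← Finset.sum_add_distrib]
    rfl
  have hsC : ∑ p ∈ R, vC p + sA t = sC τ := by
    rw [hsA, hR]
    exact Finset.sum_sdiff hS
  have hlsum : lf.sum + 10 * R.card = c * ∑ p ∈ R, vC p := by
    have h1 := sum_sub (fun p => c * vC p) R.toList (fun p _ => by
      have := hcv _ (vA_le_vC p)
      omega)
    rw [Finset.length_toList] at h1
    rw [hlf, h1, Finset.mul_sum, Finset.sum_map_toList]
  have hgsum : (gs.map (fun g => g.1 + g.2.1 + g.2.2)).sum = c * sA t := by
    have h1 : gs.map (fun g => g.1 + g.2.1 + g.2.2) = S.toList.map (fun p => c * vC p) := by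
      rw [hgs, List.map_map]
      apply List.map_congr_left
      intro p _
      simp only [Function.comp_apply, vC]
      ring
    rw [h1, hsA, Finset.mul_sum, Finset.sum_map_toList]
  rw [hgl, hll] at hα hn
  have hD : (4 * t + 4) * (c * vD t) = c * ((4 * t + 4) * vD t) := by ring
  rw [hD] at hα hn
  rw [hgsum] at hn
  have hvZ : vZ τ + sA t = sC τ + (4 * t + 4) * vD t := by
    have h1 : vD t ≤ (4 * t + 4) * vD t := by nlinarith
    have h2 : vD t = 2 * sA t + 9 := rfl
    unfold vZ
    omega
  have hvZ' : c * vZ τ + c * sA t = c * sC τ + c * ((4 * t + 4) * vD t) := by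
    rw [← mul_add, hvZ, mul_add]
  have hsC' : c * ∑ p ∈ R, vC p + c * sA t = c * sC τ := by rw [← mul_add, hsC]
  have hαd : α = dgr (zz : Big τ) := by
    show α = sc τ * vZ τ - (14 * τ.card + 2 * t + 20)
    rw [← hc]
    omega
  have hn4 : n = n4 τ := by
    unfold n4
    rw [← hc, mul_add, mul_add]
    omega
  -- the multiset
  have hL : ∀ (s : Finset (Fin t × Fin t × Fin t)) (f : Fin t × Fin t × Fin t → ℕ × Bool),
      Multiset.ofList (s.toList.map f) = s.val.map f := by
    intro s f
    rw [← Multiset.map_coe, Finset.coe_toList]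
  have hE : (Finset.univ : Finset (Fin 2 × Bool)).val.map
      (fun x => (dgr (ee x : Big τ), mrk (ee x : Big τ))) =
      {(c * 1, true), (c * 1 + 3, false), (c * 3, true), (c * 3 + 3, false)} := by
    have h1 : (Finset.univ : Finset (Fin 2 × Bool)).val =
        {(0, false), (0, true), (1, false), (1, true)} := by decide
    have h2 : ∀ x : Fin 2 × Bool, (dgr (ee x : Big τ), mrk (ee x : Big τ)) =
        (c * (if x.1 = 0 then 1 else 3) + (if x.2 then 3 else 0), !x.2) := fun _ => rfl
    rw [h1]
    simp only [h2, Multiset.insert_eq_cons, Multiset.map_cons, Multiset.map_singleton, if_true,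
      Bool.not_false, Bool.not_true, Bool.false_eq_true, if_false, add_zero, one_ne_zero]
  have hτ : τ.val = R.val + S.val := by
    rw [hR, Finset.sdiff_val]
    exact (tsub_add_cancel_of_le (Finset.val_le_iff.mpr hS)).symm
  have hT : (Finset.univ : Finset ↥τ).val.map
      (fun x => (dgr (tr x : Big τ), mrk (tr x : Big τ))) =
      R.val.map (fun p => (c * vC p - 10, false)) + S.val.map (fun p => (c * vC p - 10, false)) := by
    rw [← Multiset.map_add, ← hτ, Finset.univ_eq_attach, Finset.attach_val]
    exact Multiset.attach_map_val' τ.val (fun p => (c * vC p - 10, false))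
  have hDm : (Finset.univ : Finset (Fin (4 * t + 4))).val.map
      (fun x => (dgr (dm x : Big τ), mrk (dm x : Big τ))) =
      Multiset.replicate (4 * t + 4) (c * vD t, true) := by
    have h1 : (fun x : Fin (4 * t + 4) => (dgr (dm x : Big τ), mrk (dm x : Big τ))) =
        fun _ => (c * vD t, true) := rfl
    rw [h1, Multiset.map_const']
    congr 1
    exact Finset.card_fin _
  have hZ : (Finset.univ : Finset Unit).val.map
      (fun _ => (dgr (zz : Big τ), mrk (zz : Big τ))) = {(α, false)} := by
    rw [hαd]
    rfl
  have hM : ({(α, false), (c * 1, true), (c * 1 + 3, false), (c * 3, true), (c * 3 + 3, false)} +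
          Multiset.replicate (4 * t + 4) (c * vD t, true) +
          Multiset.ofList (lf.map (fun x => (x, false))) +
          Multiset.ofList (gs.map (fun g => (g.1, true))) +
          Multiset.ofList (gs.map (fun g => (g.2.1, true))) +
          Multiset.ofList (gs.map (fun g => (g.2.2, false))) +
          Multiset.ofList (gs.map (fun g => (g.1 + g.2.1 + g.2.2 - 10, false))) +
          Multiset.replicate n (4, false) : Multiset (ℕ × Bool)) =
      (Finset.univ : Finset (Big τ)).val.map (fun v => (dgr v, mrk v)) +
        Multiset.replicate (n4 τ) (4, false) := by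
    have e1 : Multiset.ofList (lf.map (fun x => (x, false))) =
        R.val.map (fun p => (c * vC p - 10, false)) := by
      rw [← hL, hlf, List.map_map]
      rfl
    have e2 : Multiset.ofList (gs.map (fun g => (g.1, true))) =
        S.val.map (fun p => (c * vA 0 p.1, true)) := by
      rw [← hL, hgs, List.map_map]
      rfl
    have e3 : Multiset.ofList (gs.map (fun g => (g.2.1, true))) =
        S.val.map (fun p => (c * vA 1 p.2.1, true)) := by
      rw [← hL, hgs, List.map_map]
      rfl
    have e4 : Multiset.ofList (gs.map (fun g => (g.2.2, false))) =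
        S.val.map (fun p => (c * vA 2 p.2.2, false)) := by
      rw [← hL, hgs, List.map_map]
      rfl
    have e5 : Multiset.ofList (gs.map (fun g => (g.1 + g.2.1 + g.2.2 - 10, false))) =
        S.val.map (fun p => (c * vC p - 10, false)) := by
      have h1 : gs.map (fun g => ((g.1 + g.2.1 + g.2.2 - 10 : ℕ), false)) =
          S.toList.map (fun p => (c * vC p - 10, false)) := by
        rw [hgs, List.map_map]
        apply List.map_congr_left
        intro p _
        simp only [Function.comp_apply, vC, mul_add]
      rw [h1, hL]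
    have a0 : (Finset.univ : Finset (Fin t)).val.map
        (fun b => (dgr (el (0, b) : Big τ), mrk (el (0, b) : Big τ))) =
        S.val.map (fun p => (c * vA 0 p.1, true)) := by
      rw [val_eq S hSc (fun p => p.1) hd0, Multiset.map_map]
      rfl
    have a1 : (Finset.univ : Finset (Fin t)).val.map
        (fun b => (dgr (el (1, b) : Big τ), mrk (el (1, b) : Big τ))) =
        S.val.map (fun p => (c * vA 1 p.2.1, true)) := by
      rw [val_eq S hSc (fun p => p.2.1) hd1, Multiset.map_map]
      rfl
    have a2 : (Finset.univ : Finset (Fin t)).val.map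
        (fun b => (dgr (el (2, b) : Big τ), mrk (el (2, b) : Big τ))) =
        S.val.map (fun p => (c * vA 2 p.2.2, false)) := by
      rw [val_eq S hSc (fun p => p.2.2) hd2, Multiset.map_map]
      rfl
    rw [e1, e2, e3, e4, e5, hn4, map_univ_sum, map_univ_sum, map_univ_sum, map_univ_sum,
      map_univ_fin3, a0, a1, a2, hT, hE, hDm, hZ, Multiset.insert_eq_cons (α, false),
      ← Multiset.singleton_add]
    abel
  rw [hgl] at hRl
  rw [hM] at hRl
  have hfin := hF (fun _ => 0) _ (n3 τ) (2 * t + 2) hRl ?_ ?_ ?_
  · have h1 : seqm τ = ((Finset.univ : Finset (Big τ)).val.map (fun v => (dgr v, mrk v)) +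
        Multiset.replicate (n4 τ) (4, false)).map
          (fun p : ℕ × Bool => 2 * p.1 - (if p.2 then 1 else 0)) +
          Multiset.replicate (n3 τ) 3 := by
      rw [Multiset.map_add, Multiset.map_map, Multiset.map_replicate]
      rfl
    rw [h1]
    exact hfin
  · rw [Multiset.map_add, Multiset.map_map, Multiset.map_replicate, Multiset.sum_add,
      Multiset.sum_replicate, Multiset.card_add, Multiset.card_map, Multiset.card_replicate]
    have h1 : ((Finset.univ : Finset (Big τ)).val.map (Prod.fst ∘ fun v => (dgr v, mrk v))).sum =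
        ∑ v : Big τ, dgr v := rfl
    have h2 : (Finset.univ : Finset (Big τ)).val.card = Fintype.card (Big τ) := rfl
    rw [h1, h2, smul_eq_mul]
    omega
  · rw [Multiset.countP_add, Multiset.countP_map]
    have h1 : Multiset.countP (fun p : ℕ × Bool => p.2 = true)
        (Multiset.replicate (n4 τ) (4, false)) = 0 := by
      rw [Multiset.countP_eq_zero]
      intro a ha
      rw [Multiset.eq_of_mem_replicate ha]
      decide
    rw [h1, add_zero]
    have h2 : Nat.card {v : Big τ // mrk v = true} =
        (Finset.univ.filter (fun v : Big τ => mrk v = true)).card := by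
      rw [Nat.card_eq_fintype_card, Fintype.card_subtype]
    have h3 : (Multiset.filter (fun v : Big τ => (dgr v, mrk v).2 = true) Finset.univ.val).card =
        (Finset.univ.filter (fun v : Big τ => mrk v = true)).card := rfl
    rw [h3, ← h2, hmrk]
    ring
  · rw [Multiset.card_add, Multiset.card_map, Multiset.card_replicate]
    exact hn3

end Pool.Agent.PDM.H72
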